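import Mathlib
import Pool.Agent.Helper26.AL.GoalsA

/-!
Project AL (MP_af6c86_pr), packet FUN.
-/

set_option autoImplicit false

namespace Pool.Agent.Helper36.AL

open Finset Filter Topology Pool.Agent.Helper26.AF Pool.Agent.Helper26.AL

/-- Counting disjoint pairs. -/
theorem sum_disj (n : ℕ) (Φ : ℕ → ℕ → ℝ) :
    (∑ U₁ : Finset (Fin n), ∑ U₂ : Finset (Fin n), if Disjoint U₁ U₂ then Φ #U₁ #U₂ else 0) =
      ∑ k ∈ range (n + 1), (n.choose k : ℝ) * ∑ j ∈ range (k + 1), (k.choose j : ℝ) *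
        Φ j (k - j) := by
  have h1 : ∀ U₁ : Finset (Fin n),
      (∑ U₂ : Finset (Fin n), if Disjoint U₁ U₂ then Φ #U₁ #U₂ else 0) =
        ∑ U : Finset (Fin n), if U₁ ⊆ U then Φ #U₁ (#U - #U₁) else 0 := by
    intro U₁
    rw [← Finset.sum_filter, ← Finset.sum_filter]
    refine Finset.sum_bij' (fun U₂ _ => U₁ ∪ U₂) (fun U _ => U \ U₁) ?_ ?_ ?_ ?_ ?_
    · intro U₂ _
      rw [Finset.mem_filter]
      exact ⟨Finset.mem_univ _, Finset.subset_union_left⟩
    · intro U _
      rw [Finset.mem_filter]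
      exact ⟨Finset.mem_univ _, Finset.disjoint_sdiff⟩
    · intro U₂ h
      rw [Finset.mem_filter] at h
      exact Finset.union_sdiff_cancel_left h.2
    · intro U h
      rw [Finset.mem_filter] at h
      exact Finset.union_sdiff_of_subset h.2
    · intro U₂ h
      rw [Finset.mem_filter] at h
      rw [Finset.card_union_of_disjoint h.2, Nat.add_sub_cancel_left]
  simp only [h1]
  rw [Finset.sum_comm]
  have h2 : ∀ U : Finset (Fin n), (∑ U₁ : Finset (Fin n), if U₁ ⊆ U then Φ #U₁ (#U - #U₁) else 0) =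
      ∑ j ∈ range (#U + 1), ((#U).choose j : ℝ) * Φ j (#U - j) := by
    intro U
    have h3 := Finset.sum_powerset_apply_card (fun j => Φ j (#U - j)) (x := U)
    simp only [nsmul_eq_mul] at h3
    rw [← h3, ← Finset.sum_filter]
    apply Finset.sum_congr _ (fun _ _ => rfl)
    ext V
    rw [Finset.mem_filter, Finset.mem_powerset]
    exact ⟨fun h => h.2, fun h => ⟨Finset.mem_univ _, h⟩⟩
  simp only [h2]
  have h4 := Finset.sum_powerset_apply_card
    (fun k => ∑ j ∈ range (k + 1), (k.choose j : ℝ) * Φ j (k - j)) (x := (univ : Finset (Fin n)))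
  simp only [nsmul_eq_mul] at h4
  rw [Finset.powerset_univ, Finset.card_univ, Fintype.card_fin] at h4
  exact h4

theorem EE_sum {V ι : Type} [Fintype V] [DecidableEq V] (p : ℝ) (s : Finset ι)
    (f : ι → SimpleGraph V → ℝ) :
    EE p (fun G => ∑ i ∈ s, f i G) = ∑ i ∈ s, EE p (f i) := by
  unfold EE
  rw [Finset.sum_comm]
  apply Finset.sum_congr rfl
  intro G _
  rw [Finset.mul_sum]

theorem goalFUN (hFU : Pool.Agent.Helper26.AL.StmtFU) : Pool.Agent.Helper26.AL.StmtFUN := by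
  classical
  intro n w p hp0 hp1
  rw [EE_sum]
  have h1 : ∀ U₁ : Finset (Fin n), EE p (fun G : SimpleGraph (Fin n) => ∑ U₂ : Finset (Fin n),
      open Classical in if Disjoint U₁ U₂ ∧ (Clo G U₁ ∧ Clo G U₂)
        then w #U₁ #U₂ (gi G U₁) (gi G U₂) else 0) =
      ∑ U₂ : Finset (Fin n), if Disjoint U₁ U₂ then (1 - p) ^ MM n (#U₁ + #U₂) *
        ∑ H₁ : SimpleGraph (Fin #U₁), ∑ H₂ : SimpleGraph (Fin #U₂),
          w #U₁ #U₂ H₁ H₂ * (p / (1 - p)) ^ (ne H₁ + ne H₂) else 0 := by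
    intro U₁
    rw [EE_sum]
    apply Finset.sum_congr rfl
    intro U₂ _
    by_cases hd : Disjoint U₁ U₂
    · rw [if_pos hd, ← hFU n U₁ U₂ hd (w #U₁ #U₂) p hp0 hp1]
      congr 1
      funext G
      by_cases hc : Clo G U₁ ∧ Clo G U₂
      · rw [if_pos ⟨hd, hc⟩, if_pos hc]
      · rw [if_neg (fun h => hc h.2), if_neg hc]
    · rw [if_neg hd]
      unfold EE
      apply Finset.sum_eq_zero
      intro G _
      beta_reduce
      rw [if_neg (fun h => hd h.1), mul_zero]
  have h2 := sum_disj n (fun j i => (1 - p) ^ MM n (j + i) *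
        ∑ H₁ : SimpleGraph (Fin j), ∑ H₂ : SimpleGraph (Fin i),
          w j i H₁ H₂ * (p / (1 - p)) ^ (ne H₁ + ne H₂))
  rw [Finset.sum_congr rfl (fun U₁ _ => h1 U₁)]
  refine h2.trans ?_
  apply Finset.sum_congr rfl
  intro k _
  rw [mul_assoc]
  congr 1
  rw [Finset.mul_sum]
  apply Finset.sum_congr rfl
  intro j hj
  have hjk : j + (k - j) = k := by
    rw [Finset.mem_range] at hj
    omega
  rw [hjk]
  ring

end Pool.Agent.Helper36.AL
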