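import Mathlib
import Pool.Agent.Helper26.AL.GoalsC

/-!
Project AL (MP_af6c86_pr), packet RIE.
-/

set_option autoImplicit false

namespace Pool.Agent.Helper36.AL

open Finset Filter Topology Pool.Agent.Helper26.AF Pool.Agent.Helper26.AL

theorem rpow_atTop (s : ℝ) (hs : 0 < s) :
    Tendsto (fun n : ℕ => (n : ℝ) ^ s) atTop atTop :=
  (tendsto_rpow_atTop hs).comp tendsto_natCast_atTop_atTop

theorem e_tendsto (l : ℝ) : Tendsto (fun n : ℕ => l / (n : ℝ) ^ ((1 : ℝ) / 3)) atTop (𝓝 0) :=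
  tendsto_const_nhds.div_atTop (rpow_atTop _ (by norm_num))

theorem pc_pos (l : ℝ) : ∀ᶠ n : ℕ in atTop, 0 ≤ pc l n ∧ 0 < 1 - pc l n := by
  have h1 := e_tendsto l
  have h2 : ∀ᶠ n : ℕ in atTop, -(1 / 2 : ℝ) < l / (n : ℝ) ^ ((1 : ℝ) / 3) :=
    h1.eventually_const_lt (by norm_num)
  have h3 : ∀ᶠ n : ℕ in atTop, l / (n : ℝ) ^ ((1 : ℝ) / 3) < 1 :=
    h1.eventually_lt_const (by norm_num)
  filter_upwards [h2, h3, eventually_ge_atTop 3] with n h2 h3 hn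
  have hn' : (3 : ℝ) ≤ n := by exact_mod_cast hn
  have hn0 : (0 : ℝ) < n := by linarith
  unfold pc
  refine ⟨?_, ?_⟩
  · apply div_nonneg _ hn0.le
    linarith
  · rw [sub_pos, div_lt_one hn0]
    linarith

/-- The exponential bound. -/
theorem exp_bd (s : ℝ) (hs : 0 ≤ s) (x : ℝ) (hx : 0 ≤ x) :
    (x + 1) ^ s * Real.exp (-(x ^ 3 / 12)) ≤
      Real.exp ((s + 1) * (12 * (s + 1) + 1)) * Real.exp (-x) := by
  have h1 : (x + 1) ^ s ≤ Real.exp (s * x) := by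
    have h2 : x + 1 ≤ Real.exp x := Real.add_one_le_exp x
    have h3 : (x + 1) ^ s ≤ (Real.exp x) ^ s := Real.rpow_le_rpow (by linarith) h2 hs
    rw [← Real.exp_mul, mul_comm] at h3
    exact h3
  have h4 : (x + 1) ^ s * Real.exp (-(x ^ 3 / 12)) ≤
      Real.exp (s * x) * Real.exp (-(x ^ 3 / 12)) :=
    mul_le_mul_of_nonneg_right h1 (Real.exp_pos _).le
  refine h4.trans ?_
  rw [← Real.exp_add, ← Real.exp_add, Real.exp_le_exp]
  have hc : 0 < s + 1 := by linarith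
  have h5 : (s + 1) * x - x ^ 3 / 12 ≤ (s + 1) * (12 * (s + 1) + 1) := by
    by_cases hx2 : x ≤ 12 * (s + 1) + 1
    · have h6 : (s + 1) * x ≤ (s + 1) * (12 * (s + 1) + 1) := mul_le_mul_of_nonneg_left hx2 hc.le
      have h7 : 0 ≤ x ^ 3 / 12 := by positivity
      linarith
    · have hx2 := not_le.mp hx2
      have h6 : 12 * (s + 1) ≤ x ^ 2 := by nlinarith
      have h7 : 12 * (s + 1) * x ≤ x ^ 2 * x := mul_le_mul_of_nonneg_right h6 hx
      have h8 : x ^ 3 = x ^ 2 * x := by ring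
      have h9 : 0 ≤ (s + 1) * (12 * (s + 1) + 1) := by positivity
      rw [h8]
      linarith
  linarith

theorem bdd_of_tendsto {u : ℕ → ℝ} {c : ℝ} (h : Tendsto u atTop (𝓝 c)) :
    ∃ B : ℝ, 0 < B ∧ ∀ k, |u k| ≤ B := by
  have h1 := h.abs.bddAbove_range
  obtain ⟨B, hB⟩ := h1
  refine ⟨max B 1, by positivity, fun k => (hB ⟨k, rfl⟩).trans (le_max_left _ _)⟩

/-- `G n k`. -/
noncomputable def GG (l : ℝ) (r n k : ℕ) : ℝ :=
  (n.descFactorial k : ℝ) * (1 - pc l n) ^ MM n k * (pc l n / (1 - pc l n)) ^ (k + r) *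
      Real.exp k * (n : ℝ) ^ r

/-- `F n k`. -/
noncomputable def FF (l : ℝ) (r : ℕ) (f : ℕ → ℝ) (n k : ℕ) : ℝ :=
  if 1 ≤ k ∧ k ≤ n then GG l r n k * ((k : ℝ) / (n : ℝ) ^ ((2 : ℝ) / 3)) ^ (3 * (r : ℝ) / 2 - 1) *
    (f k / nrm (3 * (r : ℝ) / 2) k) else 0

theorem term_eq (l : ℝ) (r : ℕ) (f : ℕ → ℝ) (n k : ℕ) (hk : 1 ≤ k) (hkn : k ≤ n) :
    (n.choose k : ℝ) * (1 - pc l n) ^ MM n k * ((pc l n / (1 - pc l n)) ^ (k + r) * f k) =
      (n : ℝ) ^ (-((2 : ℝ) / 3)) * FF l r f n k := by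
  have hn : 0 < n := by omega
  have hn0 : (0 : ℝ) < n := by exact_mod_cast hn
  have hk0 : (0 : ℝ) < k := by exact_mod_cast hk
  unfold FF
  rw [if_pos ⟨hk, hkn⟩]
  unfold GG nrm
  rw [Real.div_rpow hk0.le (by positivity), ← Real.rpow_mul hn0.le]
  have e1 : (n.descFactorial k : ℝ) = (k.factorial : ℝ) * (n.choose k : ℝ) := by
    exact_mod_cast Nat.descFactorial_eq_factorial_mul_choose n k
  have hf : (k.factorial : ℝ) ≠ 0 := by exact_mod_cast Nat.factorial_ne_zero k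
  have hkp : (k : ℝ) ^ (3 * (r : ℝ) / 2 - 1) ≠ 0 := (Real.rpow_pos_of_pos hk0 _).ne'
  have hnp : (n : ℝ) ^ ((2 : ℝ) / 3 * (3 * (r : ℝ) / 2 - 1)) ≠ 0 :=
    (Real.rpow_pos_of_pos hn0 _).ne'
  have hexp : Real.exp (k : ℝ) ≠ 0 := (Real.exp_pos _).ne'
  have e2 : (n : ℝ) ^ (-((2 : ℝ) / 3)) * (n : ℝ) ^ r =
      (n : ℝ) ^ ((2 : ℝ) / 3 * (3 * (r : ℝ) / 2 - 1)) := by
    rw [← Real.rpow_natCast (n : ℝ) r, ← Real.rpow_add hn0]
    congr 1
    ring
  rw [e1]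
  generalize (1 - pc l n) ^ MM n k = P at *
  generalize (pc l n / (1 - pc l n)) ^ (k + r) = Q at *
  generalize (n : ℝ) ^ ((2 : ℝ) / 3 * (3 * (r : ℝ) / 2 - 1)) = T at *
  generalize (k : ℝ) ^ (3 * (r : ℝ) / 2 - 1) = U at *
  generalize Real.exp (k : ℝ) = E at *
  generalize (k.factorial : ℝ) = c at *
  generalize (n.choose k : ℝ) = d at *
  have e3 : (n : ℝ) ^ (-((2 : ℝ) / 3)) * (c * d * P * Q * E * (n : ℝ) ^ r * (U / T) *
      (f k / (c * E * U))) =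
      ((n : ℝ) ^ (-((2 : ℝ) / 3)) * (n : ℝ) ^ r) * (c * d * P * Q * E * (U / T) *
      (f k / (c * E * U))) := by ring
  rw [e3, e2]
  field_simp

theorem goalRIE (hRS : Pool.Agent.Helper26.AL.StmtRS) (hLMT : Pool.Agent.Helper26.AL.StmtLMT)
    (hDOM : Pool.Agent.Helper26.AL.StmtDOM) : Pool.Agent.Helper26.AL.StmtRIE := by
  intro l r f β hr hAS
  have hr1 : (1 : ℝ) ≤ r := by exact_mod_cast hr
  have ha : 0 ≤ 3 * (r : ℝ) / 2 - 1 := by linarith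
  have hhk : ∀ n k : ℕ, (n : ℝ) ^ (-((2 : ℝ) / 3)) * (k : ℝ) = (k : ℝ) / (n : ℝ) ^ ((2 : ℝ) / 3) := by
    intro n k
    rw [Real.rpow_neg (Nat.cast_nonneg n)]
    exact (div_eq_inv_mul _ _).symm
  obtain ⟨C, hC, n₀, hDom⟩ := hDOM l r
  obtain ⟨B, hB, hBd⟩ := bdd_of_tendsto hAS
  have key := hRS (fun n => (n : ℝ) ^ (-((2 : ℝ) / 3))) (FF l r f)
    (fun x => x ^ (3 * (r : ℝ) / 2 - 1) * Real.exp (-((x - l) ^ 3 + l ^ 3) / 6) *
      (β / (2 ^ (3 * (r : ℝ) / 2) * Real.Gamma (3 * (r : ℝ) / 2))))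
    (fun x => C * B * Real.exp ((3 * (r : ℝ) / 2 - 1 + 1) * (12 * (3 * (r : ℝ) / 2 - 1 + 1) + 1)) *
      Real.exp (-x)) (fun n => n) ?_ ?_ ?_ ?_ ?_ ?_
  · have e1 : (∫ x in Set.Ioi (0 : ℝ), x ^ (3 * (r : ℝ) / 2 - 1) *
        Real.exp (-((x - l) ^ 3 + l ^ 3) / 6) *
        (β / (2 ^ (3 * (r : ℝ) / 2) * Real.Gamma (3 * (r : ℝ) / 2)))) = β * JJ l r := by
      rw [MeasureTheory.integral_mul_const]
      unfold JJ
      rw [if_neg (by omega)]
      ring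
    rw [e1] at key
    refine key.congr' ?_
    filter_upwards with n
    rw [Finset.mul_sum]
    apply Finset.sum_congr rfl
    intro k hk
    rw [Finset.mem_Icc] at hk
    exact (term_eq l r f n k hk.1 hk.2).symm
  · filter_upwards [eventually_gt_atTop 0] with n hn
    exact Real.rpow_pos_of_pos (by exact_mod_cast hn) _
  · have h1 := (rpow_atTop ((2 : ℝ) / 3) (by norm_num)).inv_tendsto_atTop
    refine h1.congr ?_
    intro n
    rw [Real.rpow_neg (Nat.cast_nonneg n)]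
    rfl
  · exact (integrableOn_exp_neg_Ioi 0).const_mul _
  · intro n k hk
    unfold FF
    rw [if_neg (by omega)]
  · filter_upwards [pc_pos l, eventually_ge_atTop n₀, eventually_ge_atTop 1] with n hpc hn hn1
    intro k hk x hx1 hx2
    have hn0 : (0 : ℝ) < n := by exact_mod_cast hn1
    have hk1 : (1 : ℝ) ≤ k := by exact_mod_cast hk
    have hh : 0 < (n : ℝ) ^ (-((2 : ℝ) / 3)) := Real.rpow_pos_of_pos hn0 _
    have hh1 : (n : ℝ) ^ (-((2 : ℝ) / 3)) ≤ 1 :=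
      Real.rpow_le_one_of_one_le_of_nonpos (by exact_mod_cast hn1) (by norm_num)
    have hx0 : 0 < x := by
      have : 0 ≤ (n : ℝ) ^ (-((2 : ℝ) / 3)) * ((k : ℝ) - 1) := by
        apply mul_nonneg hh.le
        linarith
      linarith
    unfold FF
    by_cases hkn : k ≤ n
    · rw [if_pos ⟨hk, hkn⟩, abs_mul, abs_mul]
      have hG0 : 0 ≤ GG l r n k := by
        unfold GG
        have h1 := hpc.1
        have h2 := hpc.2
        positivity
      have hG1 : GG l r n k ≤ C * Real.exp (-((k : ℝ) ^ 3 / (12 * (n : ℝ) ^ 2))) :=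
        hDom n hn k hkn
      have hy : (k : ℝ) / (n : ℝ) ^ ((2 : ℝ) / 3) = (n : ℝ) ^ (-((2 : ℝ) / 3)) * (k : ℝ) :=
        (hhk n k).symm
      have hy1 : (k : ℝ) / (n : ℝ) ^ ((2 : ℝ) / 3) ≤ x + 1 := by
        rw [hy]
        linarith [mul_sub ((n : ℝ) ^ (-((2 : ℝ) / 3))) (k : ℝ) 1,
          mul_one ((n : ℝ) ^ (-((2 : ℝ) / 3)))]
      have hy0 : 0 ≤ (k : ℝ) / (n : ℝ) ^ ((2 : ℝ) / 3) := by positivity
      have hy2 : x ≤ (k : ℝ) / (n : ℝ) ^ ((2 : ℝ) / 3) := by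
        rw [hy]
        exact hx2
      have hy3 : (k : ℝ) ^ 3 / (12 * (n : ℝ) ^ 2) =
          ((k : ℝ) / (n : ℝ) ^ ((2 : ℝ) / 3)) ^ 3 / 12 := by
        have e : ((n : ℝ) ^ ((2 : ℝ) / 3)) ^ 3 = (n : ℝ) ^ 2 := by
          rw [← Real.rpow_natCast, ← Real.rpow_mul hn0.le, ← Real.rpow_natCast]
          norm_num
        rw [div_pow, e]
        field_simp
      have h1 : |GG l r n k| ≤ C * Real.exp (-(x ^ 3 / 12)) := by
        rw [abs_of_nonneg hG0]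
        refine hG1.trans ?_
        apply mul_le_mul_of_nonneg_left _ hC.le
        rw [Real.exp_le_exp, hy3]
        have := pow_le_pow_left₀ hx0.le hy2 3
        linarith
      have h2 : |((k : ℝ) / (n : ℝ) ^ ((2 : ℝ) / 3)) ^ (3 * (r : ℝ) / 2 - 1)| ≤
          (x + 1) ^ (3 * (r : ℝ) / 2 - 1) := by
        rw [abs_of_nonneg (Real.rpow_nonneg hy0 _)]
        exact Real.rpow_le_rpow hy0 hy1 ha
      have h3 := hBd k
      have h4 : |GG l r n k| * |((k : ℝ) / (n : ℝ) ^ ((2 : ℝ) / 3)) ^ (3 * (r : ℝ) / 2 - 1)| ≤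
          C * Real.exp (-(x ^ 3 / 12)) * (x + 1) ^ (3 * (r : ℝ) / 2 - 1) :=
        mul_le_mul h1 h2 (abs_nonneg _) (by positivity)
      have hx1' : 0 ≤ (x + 1) ^ (3 * (r : ℝ) / 2 - 1) := Real.rpow_nonneg (by linarith) _
      have h5 := mul_le_mul h4 h3 (abs_nonneg _) (by positivity)
      refine h5.trans ?_
      have h6 := exp_bd (3 * (r : ℝ) / 2 - 1) ha x hx0.le
      have h7 : C * B * ((x + 1) ^ (3 * (r : ℝ) / 2 - 1) * Real.exp (-(x ^ 3 / 12))) ≤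
          C * B * (Real.exp ((3 * (r : ℝ) / 2 - 1 + 1) * (12 * (3 * (r : ℝ) / 2 - 1 + 1) + 1)) *
            Real.exp (-x)) := mul_le_mul_of_nonneg_left h6 (by positivity)
      calc C * Real.exp (-(x ^ 3 / 12)) * (x + 1) ^ (3 * (r : ℝ) / 2 - 1) * B
          = C * B * ((x + 1) ^ (3 * (r : ℝ) / 2 - 1) * Real.exp (-(x ^ 3 / 12))) := by ring
        _ ≤ _ := h7
        _ = _ := by ring
    · rw [if_neg (by omega), abs_zero]
      positivity
  · intro x hx κ hκ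
    have hκ' : Tendsto (fun n : ℕ => (κ n : ℝ) / (n : ℝ) ^ ((2 : ℝ) / 3)) atTop (𝓝 x) := by
      refine hκ.congr ?_
      intro n
      exact hhk n (κ n)
    have hL := hLMT l x r κ hx hκ'
    have h1 : Tendsto (fun n : ℕ => ((κ n : ℝ) / (n : ℝ) ^ ((2 : ℝ) / 3)) ^
        (3 * (r : ℝ) / 2 - 1)) atTop (𝓝 (x ^ (3 * (r : ℝ) / 2 - 1))) :=
      hκ'.rpow_const (Or.inr ha)
    have hlow : ∀ᶠ n : ℕ in atTop, x / 2 < (κ n : ℝ) / (n : ℝ) ^ ((2 : ℝ) / 3) :=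
      hκ'.eventually_const_lt (by linarith)
    have hup : ∀ᶠ n : ℕ in atTop, (κ n : ℝ) / (n : ℝ) ^ ((2 : ℝ) / 3) < x + 1 :=
      hκ'.eventually_lt_const (by linarith)
    have hinf : Tendsto (fun n : ℕ => (κ n : ℝ)) atTop atTop := by
      have h2 : Tendsto (fun n : ℕ => x / 2 * (n : ℝ) ^ ((2 : ℝ) / 3)) atTop atTop :=
        (rpow_atTop ((2 : ℝ) / 3) (by norm_num)).const_mul_atTop (by linarith)
      refine tendsto_atTop_mono' _ ?_ h2
      filter_upwards [hlow, eventually_gt_atTop 0] with n h3 hn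
      have hn0 : 0 < (n : ℝ) ^ ((2 : ℝ) / 3) := Real.rpow_pos_of_pos (by exact_mod_cast hn) _
      rw [lt_div_iff₀ hn0] at h3
      exact h3.le
    have hinf' : Tendsto κ atTop atTop := tendsto_natCast_atTop_iff.mp hinf
    have h3 := hAS.comp hinf'
    have h4 := (h1.mul hL).mul h3
    refine h4.congr' ?_
    have hbig : ∀ᶠ n : ℕ in atTop, x + 1 < (n : ℝ) ^ ((1 : ℝ) / 3) :=
      (rpow_atTop ((1 : ℝ) / 3) (by norm_num)).eventually_gt_atTop _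
    filter_upwards [hlow, hup, hbig, eventually_gt_atTop 0] with n h5 h6 h7 hn
    have hn0 : (0 : ℝ) < n := by exact_mod_cast hn
    have hn1 : 0 < (n : ℝ) ^ ((2 : ℝ) / 3) := Real.rpow_pos_of_pos hn0 _
    have hk1 : 1 ≤ κ n := by
      rw [Nat.one_le_iff_ne_zero]
      intro h8
      rw [h8, Nat.cast_zero, zero_div] at h5
      linarith
    have hkn : κ n ≤ n := by
      rw [div_lt_iff₀ hn1] at h6
      have h8 : (x + 1) * (n : ℝ) ^ ((2 : ℝ) / 3) ≤ (n : ℝ) ^ ((1 : ℝ) / 3) *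
          (n : ℝ) ^ ((2 : ℝ) / 3) := mul_le_mul_of_nonneg_right h7.le hn1.le
      rw [← Real.rpow_add hn0] at h8
      have h9 : (n : ℝ) ^ ((1 : ℝ) / 3 + (2 : ℝ) / 3) = n := by
        norm_num
      rw [h9] at h8
      have h10 : (κ n : ℝ) ≤ n := by linarith
      exact_mod_cast h10
    unfold FF GG
    rw [if_pos ⟨hk1, hkn⟩]
    simp only [Function.comp]
    ring

end Pool.Agent.Helper36.AL
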